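import Mathlib

namespace Pool.Agent.Results.MP_f969e6_lc.Counter

open Polynomial Matrix

abbrev F := ZMod 2

/-- the polynomial attached to a word -/
noncomputable def poly {n : ℕ} (c : Fin n → F) : F[X] := ∑ j, C (c j) * X ^ j.1

/-- the polycyclic code: words whose class in `F₂[x]/(t)` lies in the ideal generated by `g` -/
def code (n : ℕ) (t g : F[X]) : Set (Fin n → F) :=
  {c | AdjoinRoot.mk t (poly c) ∈ Ideal.span {AdjoinRoot.mk t g}}

def dual {n : ℕ} (K : Set (Fin n → F)) : Set (Fin n → F) := {v | ∀ c ∈ K, c ⬝ᵥ v = 0}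

def IsoDual {n : ℕ} (K : Set (Fin n → F)) : Prop :=
  ∃ σ : Equiv.Perm (Fin n), (fun c => c ∘ σ) '' K = dual K

noncomputable def g : F[X] := X ^ 10 + X ^ 9 + X ^ 7 + X ^ 6 + X ^ 2 + X + 1

theorem two : (2 : F[X]) = 0 := CharP.ofNat_eq_zero _ 2

theorem dvd : g ∣ X ^ 20 + X ^ 10 + 1 :=
  ⟨X ^ 10 + X ^ 9 + X ^ 8 + X ^ 4 + X ^ 3 + X + 1, by
    rw [g]
    linear_combination -(X ^ 19 + X ^ 18 + X ^ 17 + X ^ 16 + X ^ 15 + X ^ 14 + X ^ 13 + X ^ 12 +
      2 * X ^ 11 + 3 * X ^ 10 + 2 * X ^ 9 + X ^ 8 + X ^ 7 + X ^ 6 + X ^ 5 + X ^ 4 + X ^ 3 +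
      X ^ 2 + X) * two⟩

theorem mem_code (c : Fin 20 → F) : c ∈ code 20 (X ^ 20 + X ^ 10 + 1) g ↔ g ∣ poly c := by
  rw [code, Set.mem_ofPred_eq, Ideal.mem_span_singleton]
  constructor
  · rintro ⟨q, hq⟩
    obtain ⟨q, rfl⟩ := AdjoinRoot.mk_surjective q
    rw [← map_mul, AdjoinRoot.mk_eq_mk] at hq
    simpa using (dvd.trans hq).add (dvd_mul_right g q)
  · exact map_dvd _

def b (N i : ℕ) : F := if N.testBit i then 1 else 0
def G : Matrix (Fin 10) (Fin 20) F := fun k j => b (1735 * 2 ^ k.1) j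
def σ : Equiv.Perm (Fin 20) := Equiv.addRight 10
def H : Matrix (Fin 20) (Fin 10) F := fun j k => G k (σ j)
def S : Matrix (Fin 20) (Fin 10) F := fun j k =>
  b 1427167462230538561351652148562379919328322920846491327135744 (10 * j + k)
def R : Matrix (Fin 10) (Fin 20) F := fun k j =>
  if j.1 < 10 then b 634754813470432058154076748487 (10 * k + j) else 0

theorem e1 : S * G + H * R = 1 := by
  ext i j; revert i j; decide +kernel
theorem e2 : G * H = 0 := by
  ext i j; revert i j; decide +kernel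

theorem poly_add (c d : Fin 20 → F) : poly (c + d) = poly c + poly d := by
  simp [poly, add_mul, Finset.sum_add_distrib]

theorem row (k : Fin 10) : poly (G k) = g * X ^ k.1 := by
  have : ∀ j : Fin 20, C (G k j) * X ^ j.1 =
      if Nat.testBit (1735 * 2 ^ k.1) j then X ^ j.1 else 0 := fun j => by
    unfold G b; split_ifs <;> simp
  simp only [poly, this, g]
  fin_cases k <;> simp only [Fin.sum_univ_succ] <;> simp (decide := true) <;> ring

theorem dvd_vec (a : Fin 10 → F) : g ∣ poly (a ᵥ* G) := by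
  have : poly (a ᵥ* G) = ∑ k, C (a k) * poly (G k) := by
    simp only [poly, vecMul, dotProduct, map_sum, map_mul, Finset.sum_mul, Finset.mul_sum,
      mul_assoc]
    exact Finset.sum_comm
  rw [this]
  exact Finset.dvd_sum fun k _ => by rw [row]; exact (dvd_mul_right _ _).mul_left _

theorem coeff_poly (c : Fin 20 → F) (j : Fin 20) : (poly c).coeff j = c j := by
  simp [poly, coeff_X_pow, Fin.val_inj]

theorem small (a : Fin 10 → F) (h : g ∣ poly (a ᵥ* R)) : a ᵥ* R = 0 := by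
  have h0 : poly (a ᵥ* R) = 0 := by
    refine eq_zero_of_dvd_of_degree_lt h ?_
    have : g.degree = 10 := by unfold g; compute_degree!
    rw [this]
    refine (degree_lt_iff_coeff_zero _ 10).2 fun m hm => ?_
    by_cases h2 : m < 20
    · rw [coeff_poly _ ⟨m, h2⟩]
      simp [vecMul, dotProduct, R, hm.not_gt]
    · simp only [poly, finset_sum_coeff, coeff_C_mul, coeff_X_pow]
      exact Finset.sum_eq_zero fun j _ => by rw [if_neg (by omega), mul_zero]
  funext j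
  rw [← coeff_poly (a ᵥ* R) j, h0]; rfl

theorem dec (c : Fin 20 → F) : c = (c ᵥ* S) ᵥ* G + (c ᵥ* H) ᵥ* R := by
  rw [vecMul_vecMul, vecMul_vecMul, ← vecMul_add, e1, vecMul_one]

theorem iff1 (c : Fin 20 → F) : g ∣ poly c ↔ ∃ a, c = a ᵥ* G := by
  refine ⟨fun h => ⟨c ᵥ* S, ?_⟩, fun ⟨a, h⟩ => h ▸ dvd_vec a⟩
  have h1 := h
  rw [dec c, poly_add] at h1
  have := small _ ((dvd_add_right (dvd_vec _)).1 h1)
  conv_lhs => rw [dec c, this, add_zero]

theorem key (c : Fin 20 → F) (k : Fin 10) : G k ⬝ᵥ (c ∘ σ.symm) = (c ᵥ* H) k := by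
  rw [← comp_equiv_dotProduct_comp_equiv _ _ σ, dotProduct_comm]
  simp [vecMul, H, Function.comp_def]

theorem iso : IsoDual (code 20 (X ^ 20 + X ^ 10 + 1) g) := by
  refine ⟨σ.symm, Set.ext fun v => ⟨?_, fun h => ⟨v ∘ σ, ?_, by ext; simp⟩⟩⟩
  · rintro ⟨c, hc, rfl⟩ d hd
    obtain ⟨a, rfl⟩ := (iff1 c).1 ((mem_code c).1 hc)
    obtain ⟨a', rfl⟩ := (iff1 d).1 ((mem_code d).1 hd)
    rw [← dotProduct_mulVec]
    have : G *ᵥ ((a ᵥ* G) ∘ σ.symm) = 0 := by
      funext k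
      exact (key _ k).trans (by rw [vecMul_vecMul, e2, vecMul_zero])
    rw [this, dotProduct_zero]
  · rw [mem_code, iff1]
    refine ⟨(v ∘ σ) ᵥ* S, ?_⟩
    have : (v ∘ σ) ᵥ* H = 0 := by
      funext k
      rw [← key, show (v ∘ σ) ∘ σ.symm = v by ext; simp]
      exact h _ ((mem_code _).2 (by rw [row]; exact dvd_mul_right _ _))
    conv_lhs => rw [dec (v ∘ σ), this, zero_vecMul, add_zero]

theorem result : ¬ ∀ (n i : ℕ) (g : F[X]), 1 ≤ i → i < n → g.Monic → g ∣ X ^ n + X ^ i + 1 →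
    (IsoDual (code n (X ^ n + X ^ i + 1) g) ↔ g ^ 2 = X ^ n + X ^ i + 1) := by
  intro h
  have h1 := (h 20 10 g (by norm_num) (by norm_num) (by unfold g; monicity!) dvd).1 iso
  have h2 : g ^ 2 = X ^ 20 + X ^ 18 + X ^ 14 + X ^ 12 + X ^ 4 + X ^ 2 + 1 := by
    simp only [g, CharTwo.add_sq]; ring
  have := congrArg (coeff · 10) (h2.symm.trans h1)
  simp [coeff_X_pow, coeff_one] at this

end Pool.Agent.Results.MP_f969e6_lc.Counter
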